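import Pool.Agent.K4H97.SG.Main

/-!
# MP_02ff8e_lc, Q2 (and Q1): `𝔠 = ω₃` and `ℝ` is partitioned into `ω₂` additive `F_σ` semigroups

The main part of the forcing notion is a finite support iteration of length `κ` (a cardinal of
uncountable cofinality) of ccc forcing notions. The stage `ξ` adds compact subsets `C ξ n`
(`n < ω`) of the Cantor space such that every real of the intermediate model is a rational
combination of the members of the sets `C η n`, `η ≤ ξ` (a real which is not in the span of the
previous reals is promised to be a member of some `C ξ n`), while all the members of all the
sets `C ξ n`, also in the later models, are linearly independent over the rational numbers. The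
independence is kept because a rational vector space spanned by countably many compact sets is
meager unless it is the whole line. So in the extension the real line has a basis `B` over the
rationals which is the disjoint union of the `κ` many `σ`-compact sets `B ξ = ⋃ C ξ n`, and the
pieces of the partition are the sets of all reals whose `B ξ`-parts have given signs (positive,
negative or zero), for all `ξ`. They are closed under addition, `F_σ`, and there are `κ` many of
them. The value of the continuum `μ ≥ κ` is arbitrary with `μ ^ ω = μ`; we take `κ = (2 ^ ω)⁺`
and `μ = (2 ^ ω)⁺⁺` and collapse `2 ^ ω` to `ω₁` without adding reals.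

The iteration is presented by a single set of finite conditions in
`Pool/Agent/K4H97/SG/Base.lean`; the sentences of the forcing language which occur in the result
are spelled out in `Pool/Agent/Helper669/Forcing.lean`, `Pool/Agent/K4H97/SG/Defs.lean` and
`Pool/Agent/K4H97/SG/CardDefs.lean`.
-/

set_option autoImplicit false

namespace Pool.Agent.Results.MP_02ff8e_lc.FSigmaSemigroups

open Pool.Agent.K4H97.SG

/-- There is a notion of forcing such that every condition forces the following: the sets
`X₁`, `X₂`, `X₃` have the cardinalities `ω₁`, `ω₂`, `ω₃`, the continuum is `|X₃|`, and there is a
partition of the real line into nonempty `F_σ` sets closed under addition, indexed by `X₂`. -/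
theorem result : ∃ (P : Type) (_ : Preorder P) (X₁ X₂ X₃ : Type) (_ : LinearOrder X₁)
    (_ : LinearOrder X₂) (_ : LinearOrder X₃), Nonempty P ∧ ∀ p : P,
      p ∈ NextN P ℕ X₁ ∧ p ∈ NextN P X₁ X₂ ∧ p ∈ NextN P X₂ X₃ ∧ p ∈ ContinuumEq P X₃ ∧
      p ∈ SemigroupPartition P X₂ :=
  exists_model

end Pool.Agent.Results.MP_02ff8e_lc.FSigmaSemigroups
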